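import Pool.Agent.H.MP_2e8011_lc.B

namespace Pool.Agent.H.MP_f63b47_lc
open Pool.Agent.Lib.CX hiding nxt
open Pool.Agent.Lib.helper7 Pool.Agent.H.MP_2e8011_lc

variable {V : Type} [DecidableEq V]

def zone (m : V) (J : ℕ) (ψ : List (T3 V)) (u : P V) : Finset (P V) :=
  (m :: (ψ.getD u.2.1 (m, m, m)).vars).toFinset ×ˢ {u.2.1} ×ˢ Finset.Ico (J + 1) (J + 9)

theorem zone_card (m : V) (J : ℕ) (ψ : List (T3 V)) (u : P V) : (zone m J ψ u).card ≤ 32 := by
  have b : (m :: (ψ.getD u.2.1 (m, m, m)).vars).toFinset.card ≤ 4 := List.toFinset_card_le _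
  simp only [zone, Finset.card_product, Finset.card_singleton, Nat.card_Ico]
  rw [show J + 9 - (J + 1) = 8 by omega]
  omega

theorem deg3 {m : V} {J : ℕ} {ψ} {a b c d : P V} (ha : a ∈ vs m J ψ) (hb : b ∈ vs m J ψ)
    (hc : c ∈ vs m J ψ) (hd : d ∈ vs m J ψ) (e1 : NA (es m J ψ) a b) (e2 : NA (es m J ψ) a c)
    (e3 : NA (es m J ψ) a d) (n1 : b ≠ c) (n2 : b ≠ d) (n3 : c ≠ d) :
    a.1 ∈ m :: (ψ.getD a.2.1 (m, m, m)).vars ∧ J + 1 ≤ a.2.2 ∧ a.2.2 < J + 9 := by
  rw [na_iff ha ‹_›] at e1 e2 e3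
  have : ∃ v, chord m J (ψ.getD a.2.1 (m, m, m)) a v ∨ chord m J (ψ.getD a.2.1 (m, m, m)) v a := by
    grind
  obtain ⟨v, h⟩ := this
  simp only [chord] at h
  simp only [T3.vars, List.mem_cons]
  clear e1 e2 e3
  grind

theorem in_zone {m : V} {j J : ℕ} {ψ} (hJ : j ≤ J) (p : ℕ → P V) (hp : ∀ k ≤ j, p k ∈ vs m J ψ)
    (nb : ∀ l, l + 1 + 1 ≤ j → p l ≠ p (l + 1 + 1))
    (h1 : ∀ k < j, NA (es m J ψ) (p k) (p (k + 1)))
    (d0 : (p 0).1 ∈ m :: (ψ.getD (p 0).2.1 (m, m, m)).vars ∧ J + 1 ≤ (p 0).2.2 ∧ (p 0).2.2 < J + 9)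
    (d1 : J + 1 ≤ (p j).2.2 ∧ (p j).2.2 < J + 9) : ∀ l ≤ j, p l ∈ zone m J ψ (p 0) := by
  let Z : Finset (P V) := zone m J ψ (p 0)
  have hZ : ∀ u, u ∈ Z ↔ u.1 ∈ m :: (ψ.getD (p 0).2.1 (m, m, m)).vars ∧ u.2.1 = (p 0).2.1 ∧
      J + 1 ≤ u.2.2 ∧ u.2.2 < J + 9 := fun u => by
    simp only [Z, zone, Finset.mem_product, List.mem_toFinset, Finset.mem_singleton, Finset.mem_Ico]
  have inv : ∀ k ≤ j, (∀ l ≤ k, p l ∈ Z) ∨ ∃ l, k = l + 1 ∧
      ((J + 9 ≤ (p k).2.2 ∧ (p k).2.2 ≤ J + 8 + k ∧ p l = prv ψ.length J (p k)) ∨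
        ((p k).2.2 ≤ J ∧ J + 1 ≤ (p k).2.2 + k ∧ p l = nxt ψ.length J (p k))) := fun k => by
    induction k with
    | zero => exact fun _ => .inl fun l hl => by rw [hZ, Nat.le_zero.1 hl]; exact ⟨d0.1, rfl, d0.2⟩
    | succ k ih =>
      intro hk
      have e := ((na_iff (hp _ (by omega)) (hp _ (by omega))).1 (h1 k hk)).2
      rcases ih (by omega) with h | ⟨l, rfl, h⟩
      · have a := (hZ _).1 (h k le_rfl)
        by_cases c : p (k + 1) ∈ Z
        · exact .inl fun l hl => (Nat.lt_or_eq_of_le hl).elim (fun b => h l (by omega)) fun b => b ▸ c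
        refine .inr ⟨k, rfl, ?_⟩
        rw [hZ] at c
        rw [a.2.1] at e
        generalize ψ.getD (p 0).2.1 (m, m, m) = C at *
        generalize p k = u, p (k + 1) = v, (p 0).2.1 = i at *
        obtain ⟨u1, u2, u3⟩ := u
        obtain ⟨v1, v2, v3⟩ := v
        simp only [chord, nxt, prv, T3.vars, List.mem_cons] at a c e ⊢
        clear h ih hZ nb hp h1 d0 d1 Z
        grind (splits := 40)
      · refine .inr ⟨l + 1, rfl, ?_⟩
        have := nb l (by omega)
        generalize ψ.getD (p (l + 1)).2.1 (m, m, m) = C at *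
        generalize p l = w, p (l + 1) = u, p (l + 1 + 1) = v at *
        obtain ⟨u1, u2, u3⟩ := u
        obtain ⟨v1, v2, v3⟩ := v
        simp only [chord, nxt, prv] at h e ⊢
        clear ih hZ nb hp h1 d0 d1 Z
        grind (splits := 40)
  rcases inv j le_rfl with h | ⟨l, -, h⟩
  · exact h
  · omega

theorem no_copy' {m : V} {j J : ℕ} {ψ} (hj : 32 ≤ j) (hJ : j ≤ J) (p : ℕ → P V)
    (hp : ∀ k < j + 5, p k ∈ vs m J ψ)
    (inj : ∀ k < j + 5, ∀ l < j + 5, p k = p l → k = l)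
    (h1 : ∀ k < j, NA (es m J ψ) (p k) (p (k + 1)))
    (h2 : NA (es m J ψ) (p 0) (p (j + 1))) (h3 : NA (es m J ψ) (p 0) (p (j + 2)))
    (h4 : NA (es m J ψ) (p j) (p (j + 3))) (h5 : NA (es m J ψ) (p j) (p (j + 4))) : False := by
  have ne : ∀ k < j + 5, ∀ l < j + 5, k ≠ l → p k ≠ p l := fun k hk l hl => mt (inj k hk l hl)
  have d0 := deg3 (hp 0 (by omega)) (hp _ (by omega)) (hp _ (by omega)) (hp _ (by omega))
    (h1 0 (by omega)) h2 h3 (ne _ (by omega) _ (by omega) (by omega))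
    (ne _ (by omega) _ (by omega) (by omega)) (ne _ (by omega) _ (by omega) (by omega))
  obtain ⟨k, rfl⟩ : ∃ k, j = k + 1 := ⟨j - 1, by omega⟩
  have d1 := deg3 (hp (k + 1) (by omega)) (hp k (by omega)) (hp _ (by omega)) (hp _ (by omega))
    ⟨(h1 k (by omega)).1.symm, (h1 k (by omega)).2.symm⟩ h4 h5
    (ne _ (by omega) _ (by omega) (by omega))
    (ne _ (by omega) _ (by omega) (by omega)) (ne _ (by omega) _ (by omega) (by omega))
  have h := in_zone hJ p (fun k hk => hp k (by omega))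
    (fun l hl => ne _ (by omega) _ (by omega) (by omega)) h1 d0 d1.2
  have := Finset.card_le_card_of_injOn (s := Finset.range (k + 1 + 1)) (t := zone m J ψ (p 0)) p
    (fun l hl => h l (by simpa [Nat.lt_succ_iff] using hl))
    fun a ha b hb => inj a (by simp at ha; omega) b (by simp at hb; omega)
  have b := zone_card m J ψ (p 0)
  rw [Finset.card_range] at this
  omega

theorem no_cycle {m : V} {L J : ℕ} {ψ} (hL : 33 ≤ L) (hJ : L ≤ J) (p : ℕ → P V)
    (hp : ∀ k, p k ∈ vs m J ψ) (per : ∀ k, p (k + L) = p k)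
    (inj : ∀ k l, k < l → l < k + L → p k ≠ p l)
    (h1 : ∀ k, NA (es m J ψ) (p k) (p (k + 1))) : False := by
  by_cases hz : ∃ k, (p k).1 ∈ m :: (ψ.getD (p k).2.1 (m, m, m)).vars ∧ J + 1 ≤ (p k).2.2 ∧
      (p k).2.2 < J + 9
  · obtain ⟨k, hk⟩ := hz
    have h := in_zone hJ (fun l => p (k + l)) (fun _ _ => hp _)
      (fun l _ => inj _ _ (by omega) (by omega)) (fun l _ => h1 (k + l)) hk
      (by simpa only [per] using hk.2)
    have := Finset.card_le_card_of_injOn (s := Finset.range L) (t := zone m J ψ (p (k + 0)))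
      (fun l => p (k + l)) (fun l hl => h l (by simp at hl; omega))
      fun a ha b hb e => by
        simp at ha hb
        by_contra hne
        rcases Nat.lt_or_gt_of_ne hne with c | c
        · exact inj (k + a) (k + b) (by omega) (by omega) e
        · exact inj (k + b) (k + a) (by omega) (by omega) e.symm
    have b := zone_card m J ψ (p (k + 0))
    rw [Finset.card_range] at this
    omega
  have st : ∀ k, p (k + 1) = nxt ψ.length J (p k) ∨ p (k + 1) = prv ψ.length J (p k) := by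
    intro k
    rcases ((na_iff (hp _) (hp _)).1 (h1 k)).2 with h | h | h
    · exact .inl h
    · exact .inr h
    · refine absurd ⟨k, ?_⟩ hz
      simp only [chord] at h
      simp only [T3.vars, List.mem_cons]
      clear hz inj per hp h1
      grind
  have np := fun k l => nxt_prv (mem_vs.1 (hp k)).2 (mem_vs.1 (hp l)).2
  have t0 := (mem_vs.1 (hp 0)).2.2
  have e := congrArg (·.2.2) (per 0)
  simp only [Nat.zero_add] at e
  rcases st 0 with h0 | h0
  · have a : ∀ k, p (k + 1) = nxt ψ.length J (p k) := by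
      intro k
      induction k with
      | zero => exact h0
      | succ k ih =>
        refine (st (k + 1)).resolve_right fun c => inj k (k + 1 + 1) (by omega) (by omega) ?_
        rw [c]; exact (np _ _).1 ih
    have b : ∀ k ≤ L, (p k).2.2 = (p 0).2.2 + k ∨ (p k).2.2 + (2 * J + 10) = (p 0).2.2 + k := by
      intro k
      induction k with
      | zero => simp
      | succ k ih =>
        intro hk
        have := ih (by omega)
        have := (mem_vs.1 (hp k)).2.2
        rw [a k, nxt]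
        split_ifs <;> simp only <;> omega
    have := b L le_rfl
    omega
  · have a : ∀ k, p (k + 1) = prv ψ.length J (p k) := by
      intro k
      induction k with
      | zero => exact h0
      | succ k ih =>
        refine (st (k + 1)).resolve_left fun c => inj k (k + 1 + 1) (by omega) (by omega) ?_
        rw [c]; exact (np _ _).2 ih
    have b : ∀ k ≤ L, (p k).2.2 + k = (p 0).2.2 ∨ (p k).2.2 + k = (p 0).2.2 + (2 * J + 10) := by
      intro k
      induction k with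
      | zero => simp
      | succ k ih =>
        intro hk
        have := ih (by omega)
        have := (mem_vs.1 (hp k)).2.2
        rw [a k, prv]
        split_ifs <;> simp only <;> omega
    have := b L le_rfl
    omega

theorem four {m : V} {J : ℕ} {ψ} {u : P V} (hu : u ∈ vs m J ψ) :
    ∃ s : Finset (P V), s.card ≤ 4 ∧ ∀ v ∈ vs m J ψ, NA (es m J ψ) u v → v ∈ s := by
  obtain ⟨r, i, t⟩ := u
  let C := ψ.getD i (m, m, m)
  refine ⟨{nxt ψ.length J (r, i, t), prv ψ.length J (r, i, t),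
    if r = m then (if t = J + 1 then (C.1, i, J + 1) else if t = J + 2 then (C.1, i, J + 2)
      else if t = J + 4 then (C.2.1, i, J + 4) else if t = J + 5 then (C.2.1, i, J + 5)
      else if t = J + 7 then (m, i, J + 1) else (m, i, J + 4))
    else (m, i, if t = J + 7 then J + 1 else if t = J + 8 then J + 4 else t),
    if t = J + 1 then (C.2.2, i, J + 7) else if t = J + 4 then (C.2.2, i, J + 8)
      else if t = J + 2 then (m, i, J + 5) else (m, i, J + 2)}, Finset.card_le_four, ?_⟩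
  rintro ⟨r', i', t'⟩ hv h
  rw [na_iff hu hv] at h
  simp only [Finset.mem_insert, Finset.mem_singleton]
  obtain ⟨hne, h | h | h | h⟩ := h
  · exact .inl h
  · exact .inr (.inl h)
  · right; right
    simp only [chord] at h
    change _ ∧ _ ∧ ((_ ∧ _ = C.1 ∧ _) ∨ (_ ∧ _ = C.1 ∧ _) ∨ (_ ∧ _ = C.2.1 ∧ _) ∨
      (_ ∧ _ = C.2.1 ∧ _) ∨ (_ ∧ _ = C.2.2 ∧ _) ∨ (_ ∧ _ = C.2.2 ∧ _) ∨ _) at h
    clear_value C
    clear hu hv
    grind
  · right; right
    simp only [chord] at h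
    change _ ∧ _ ∧ ((_ ∧ _ = C.1 ∧ _) ∨ (_ ∧ _ = C.1 ∧ _) ∨ (_ ∧ _ = C.2.1 ∧ _) ∨
      (_ ∧ _ = C.2.1 ∧ _) ∨ (_ ∧ _ = C.2.2 ∧ _) ∨ (_ ∧ _ = C.2.2 ∧ _) ∨ _) at h
    clear_value C
    clear hu hv
    grind

end Pool.Agent.H.MP_f63b47_lc
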